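import Pool.Agent.V11298.EC.Forb

/-!
# List edge colouring when the lists are almost a common palette

If all the lists are subsets of a palette of at most `k + q` colours, and every list has at least
`k` colours, where `k ≥ D + 48 + 16 q + (88 + 40 (⌊log₂ q⌋ + 4)²) log (D + 1)` and `D` bounds the
maximum degree, then the graph has a proper edge colouring from the lists.
-/

set_option autoImplicit false

namespace Pool.Agent.Results.MP_2f9829_co.FewForbiddenColours

open Finset

/-- **Near-common palettes.**  Let `G` be a finite simple graph in which every vertex has at most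
`D` neighbours, let `q ≥ 1`, and let the edges have lists `L e` of at least `k` colours each, all
of them contained in one set `P` of at most `k + q` colours.  If
`k ≥ D + 48 + 16 q + (88 + 40 (⌊log₂ q⌋ + 4)²) log (D + 1)`, then `G` has a proper edge colouring
with every edge coloured from its list. -/
theorem result {V : Type} [Fintype V] {α : Type} [Nonempty α] (G : SimpleGraph V) (D k q : ℕ) (hq : 1 ≤ q)
    (hD : ∀ v, (G.neighborSet v).ncard ≤ D) (P : Finset α) (hP : P.card ≤ k + q)
    (L : Sym2 V → Finset α) (hL : ∀ e ∈ G.edgeSet, L e ⊆ P ∧ k ≤ (L e).card)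
    (hk : (D : ℝ) + 48 + 16 * q + (88 + 40 * (Nat.log 2 q + 4) ^ 2) * Real.log (D + 1) ≤ k) :
    ∃ c : Sym2 V → α, (∀ e ∈ G.edgeSet, c e ∈ L e) ∧
      ∀ u v v', G.Adj u v → G.Adj u v' → v ≠ v' → c s(u, v) ≠ c s(u, v') := by
  classical
  by_cases hE : ∃ e, e ∈ G.edgeSet
  · obtain ⟨e₀, he₀⟩ := hE
    have hkP : k ≤ P.card := (hL e₀ he₀).2.trans (card_le_card (hL e₀ he₀).1)
    set r := max 1 (P.card - k) with hr
    have hr1 : 1 ≤ r := le_max_left _ _
    have hrq : r ≤ q := max_le hq (by omega)
    have hrP : P.card ≤ k + r := by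
      have := le_max_right 1 (P.card - k)
      omega
    have hrP' : k + r ≤ P.card + 1 := by
      rcases max_cases 1 (P.card - k) with ⟨h, _⟩ | ⟨h, _⟩ <;> omega
    have hlog : Nat.log 2 r ≤ Nat.log 2 q := Nat.log_mono_right hrq
    have hL0 : 0 ≤ Real.log ((D : ℝ) + 1) :=
      Real.log_nonneg (by have : (0 : ℝ) ≤ D := Nat.cast_nonneg _; linarith)
    have hN : (D : ℝ) + 47 + 17 * r + (88 + 40 * (Nat.log 2 r + 4) ^ 2) * Real.log (D + 1) ≤
        P.card := by
      have h1 : ((Nat.log 2 r : ℕ) : ℝ) ≤ (Nat.log 2 q : ℕ) := by exact_mod_cast hlog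
      have h2 : (0 : ℝ) ≤ (Nat.log 2 r : ℕ) := Nat.cast_nonneg _
      have h3 : (88 + 40 * (((Nat.log 2 r : ℕ) : ℝ) + 4) ^ 2) * Real.log (D + 1) ≤
          (88 + 40 * (((Nat.log 2 q : ℕ) : ℝ) + 4) ^ 2) * Real.log (D + 1) := by
        apply mul_le_mul_of_nonneg_right _ hL0
        nlinarith
      have h4 : (r : ℝ) ≤ q := by exact_mod_cast hrq
      have h5 : (k : ℝ) + r ≤ P.card + 1 := by exact_mod_cast hrP'
      linarith
    -- identify the palette with the numbers below its size
    let φ : α → ℕ := fun x => if h : x ∈ P then (P.equivFin ⟨x, h⟩ : ℕ) else 0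
    have hφ : ∀ x ∈ P, ∀ y ∈ P, φ x = φ y → x = y := by
      intro x hx y hy h
      simp only [φ, dif_pos hx, dif_pos hy] at h
      have h1 := P.equivFin.injective (Fin.ext h)
      exact congrArg Subtype.val h1
    have hdeg : ∀ v, G.degree v ≤ D := by
      intro v
      have h1 := hD v
      rwa [← SimpleGraph.coe_neighborFinset, Set.ncard_coe_finset] at h1
    obtain ⟨c, hc1, hc2⟩ := Pool.Agent.V11298.EC.forb G D r P.card hr1 hdeg
      (fun e => (P \ L e).image φ) (fun e he => by
        refine card_image_le.trans ?_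
        rw [card_sdiff_of_subset (hL e he).1]
        have := (hL e he).2
        omega) hN
    have hψ : ∀ e ∈ G.edgeSet, ∃ x ∈ L e, φ x = c e := by
      intro e he
      obtain ⟨h1, h2⟩ := hc1 e he
      set x : α := (P.equivFin.symm ⟨c e, h1⟩ : α) with hx
      have hxP : x ∈ P := (P.equivFin.symm ⟨c e, h1⟩).2
      have hφx : φ x = c e := by
        simp only [φ, dif_pos hxP]
        simp [hx]
      refine ⟨x, ?_, hφx⟩
      by_contra hxL
      exact h2 (mem_image.2 ⟨x, mem_sdiff.2 ⟨hxP, hxL⟩, hφx⟩)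
    obtain ⟨x₀⟩ := ‹Nonempty α›
    refine ⟨fun e => if he : e ∈ G.edgeSet then (hψ e he).choose else x₀, ?_, ?_⟩
    · intro e he
      simp only [dif_pos he]
      exact (hψ e he).choose_spec.1
    · intro u v v' h1 h2 hne h
      have he1 : s(u, v) ∈ G.edgeSet := h1
      have he2 : s(u, v') ∈ G.edgeSet := h2
      simp only [dif_pos he1, dif_pos he2] at h
      apply hc2 u v v' h1 h2 hne
      rw [← (hψ _ he1).choose_spec.2, ← (hψ _ he2).choose_spec.2, h]
  · have hE' : ∀ u v, ¬ G.Adj u v := fun u v h => hE ⟨s(u, v), h⟩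
    obtain ⟨x⟩ := ‹Nonempty α›
    exact ⟨fun _ => x, fun e he => absurd ⟨e, he⟩ hE, fun u v _ h => absurd h (hE' u v)⟩

end Pool.Agent.Results.MP_2f9829_co.FewForbiddenColours
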