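import Pool.Agent.TH559.LE.Quarter

/-!
# The list edge-colouring conjecture for graphs whose large vertices have few large neighbours

Let all degrees of `G` be at most `D`. A vertex is `k`-large if its degree is more than `k`. If
`2 k ≤ D + 1` and every `k`-large vertex has at most `D - k` `k`-large neighbours, then `G` is
`D`-edge-choosable if and only if the subgraph induced by the `k`-large vertices is; and this is the
case if `3 k ≥ D`, and if `k ≥ ε D + K (1 + log (N + 1))`, where `N` is the number of the `k`-large
vertices.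
-/

set_option autoImplicit false

open Finset Pool.Agent.TH559.LE

namespace Pool.Agent.Results.MP_2f9829_co.FewLargeNeighbours

/-- The edges of `G` can be properly coloured from all lists of at least `k` colours. -/
def EdgeChoosable {V : Type} (G : SimpleGraph V) (k : ℕ) : Prop :=
  ∀ L : G.edgeSet → Finset ℕ, (∀ e, k ≤ (L e).card) →
    ∃ f : G.edgeSet → ℕ, (∀ e, f e ∈ L e) ∧ ∀ e e', G.lineGraph.Adj e e' → f e ≠ f e'

/-- The list edge-colouring conjecture for the single graph `G`, in the form of the frozen statement
`S07911`: for every `k`, the edges of `G` can be properly coloured with `k` colours if and only if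
they can be properly coloured from all lists of at least `k` colours. -/
def ListEdgeConjectureFor {V : Type} (G : SimpleGraph V) : Prop :=
  ∀ k : ℕ, G.lineGraph.Colorable k ↔ EdgeChoosable G k

/-- The degree of `v` in `G`. -/
noncomputable def deg {V : Type} (G : SimpleGraph V) (v : V) : ℕ := (G.neighborSet v).ncard

/-- The number of neighbours of `v` of degree more than `k`. -/
noncomputable def large {V : Type} (G : SimpleGraph V) (k : ℕ) (v : V) : ℕ :=
  {w | G.Adj v w ∧ k < deg G w}.ncard

/-- The subgraph of the edges both of whose ends have degree more than `k`. -/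
def largeEdges {V : Type} (G : SimpleGraph V) (k : ℕ) : SimpleGraph V where
  Adj u v := G.Adj u v ∧ k < deg G u ∧ k < deg G v
  symm := ⟨fun _ _ h => ⟨h.1.symm, h.2.2, h.2.1⟩⟩
  loopless := ⟨fun _ h => G.loopless.irrefl _ h.1⟩

theorem core_eq {V : Type} (G : SimpleGraph V) (k : ℕ) : core G k = largeEdges G k := rfl

/-- Subgraphs inherit edge choosability. -/
theorem mono {V : Type} {H G : SimpleGraph V} (h : H ≤ G) {k : ℕ} (hG : Choosable G k) :
    Choosable H k := by
  classical
  rw [choosable_iff] at hG ⊢
  intro L hL
  obtain ⟨c, hc⟩ := hG (fun z => if z ∈ H.edgeSet then L z else range k) (by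
    intro u v _
    split_ifs with h1
    · exact hL u v ((SimpleGraph.mem_edgeSet H).1 h1)
    · simp)
  refine ⟨c, ?_, ?_⟩
  · intro u v huv
    have h1 := hc.1 u v (h huv)
    simp only at h1
    rwa [if_pos ((SimpleGraph.mem_edgeSet H).2 huv)] at h1
  · intro u v w h1 h2 hne
    exact hc.2 u v w (h h1) (h h2) hne

theorem dg_core_le {V : Type} [Fintype V] (G : SimpleGraph V) (k : ℕ) (v : V) :
    dg (core G k) v ≤ large G k v :=
  Set.ncard_le_ncard (fun _ h => ⟨h.1, h.2.2⟩) (Set.toFinite _)

/-- With slack for the core. -/
theorem core_slack (ε : ℝ) (hε : 0 < ε) : ∃ K : ℝ, 0 < K ∧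
    (∀ (V : Type) [Fintype V] (G : SimpleGraph V) (D k : ℕ), (∀ v, dg G v ≤ D) →
      (∀ v, k < dg G v → (large G k v : ℝ) +
        (ε * D + K * (1 + Real.log ({w | k < deg G w}.ncard + 1))) ≤ D) →
      Choosable (core G k) D) ∧
    (∀ (V : Type) [Fintype V] (G : SimpleGraph V) (D k : ℕ), (∀ v, dg G v ≤ D) →
      D + 1 ≤ 2 * k → (∀ v, (large G k v : ℝ) + k +
        (ε * D + K * (1 + Real.log ({w | D + 2 ≤ deg G w + k}.ncard + 1))) ≤ D) →
      Choosable G D) := by
  classical
  obtain ⟨K, hK0, hK⟩ := exists_irr ε hε
  refine ⟨K, hK0, ?_, ?_⟩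
  · intro V _ G D k hD hk
    have hcG : core G k ≤ G := fun a b h => h.1
    apply hK V (core G k) D (fun v => (dg_mono hcG v).trans (hD v))
    rintro H hH hne ⟨hI, hI2⟩
    obtain ⟨x, y, h3, h4, h5⟩ := hI2 ⊥ (bot_lt_iff_ne_bot.2 hne)
      (univ.filter (fun v => k < deg G v)) (by
        intro a b h3 _
        rw [Finset.mem_filter]
        exact ⟨mem_univ _, (hH h3).2.1⟩)
    rw [dg_bot] at h5
    have h6 := hk x (hH h3).2.1
    have h7 : (dg H x : ℝ) ≤ large G k x := by
      exact_mod_cast (dg_mono hH x).trans (dg_core_le G k x)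
    have h8 : ((univ.filter (fun v => k < deg G v)).card : ℝ) = {w | k < deg G w}.ncard := by
      rw [← Set.ncard_coe_finset]
      congr 2
      ext w
      simp
    unfold slack at h5
    rw [h8] at h5
    push_cast at h5
    linarith
  · intro V _ G D k hD h2k hk
    apply hK V G D hD
    rintro H hH hne ⟨hI, hI2⟩
    have conv : ∀ y : V, ((univ.filter (fun w => H.Adj y w ∧ k < dg H w)).card : ℝ) ≤
        large G k y := by
      intro y
      have : (univ.filter (fun w => H.Adj y w ∧ k < dg H w)).card ≤ large G k y := by
        rw [← Set.ncard_coe_finset]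
        apply Set.ncard_le_ncard _ (Set.toFinite _)
        intro w hw
        rw [Finset.mem_coe, Finset.mem_filter] at hw
        exact ⟨hH hw.2.1, lt_of_lt_of_le hw.2.2 (dg_mono hH w)⟩
      exact_mod_cast this
    set N := {w | D + 2 ≤ deg G w + k}.ncard with hN
    have hW : ∀ W : Finset V, (∀ w ∈ W, D + 2 ≤ dg H w + k) → slack D ε K W.card ≤
        ε * D + K * (1 + Real.log (N + 1)) := by
      intro W hW
      have h1 : W.card ≤ N := by
        rw [← Set.ncard_coe_finset, hN]
        apply Set.ncard_le_ncard _ (Set.toFinite _)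
        intro w hw
        have h1 := hW w hw
        have h2 := dg_mono hH w
        show D + 2 ≤ dg G w + k
        omega
      exact slack_mono D ε K hK0.le h1
    have hk0 : (0 : ℝ) ≤ k := by positivity
    have hN0 : (0 : ℝ) ≤ N := by positivity
    have hs0 : 0 ≤ ε * D + K * (1 + Real.log ((N : ℝ) + 1)) := by
      have h1 : 0 ≤ Real.log ((N : ℝ) + 1) := Real.log_nonneg (by linarith)
      have : 0 ≤ K * (1 + Real.log ((N : ℝ) + 1)) := mul_nonneg hK0.le (by linarith)
      have : 0 ≤ ε * (D : ℝ) := by positivity
      linarith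
    rcases irr2_three hI hI2 hne (fun v => (dg_mono hH v).trans (hD v)) k with
      ⟨y, h⟩ | ⟨y, hy, h⟩ | ⟨y, hy, h⟩
    · have h1 := conv y
      have h2 := hk y
      have h3 := hW (univ.filter (fun v => 0 < dg H v ∧ D + 2 ≤ dg H v + k)) (by
        intro w hw
        rw [Finset.mem_filter] at hw
        exact hw.2.2)
      linarith
    · have h1 := conv y
      have h2 := hk y
      have h3 : ((D + 1 : ℕ) : ℝ) ≤
          ((k + (univ.filter (fun w => H.Adj y w ∧ k < dg H w)).card : ℕ) : ℝ) := by
        exact_mod_cast h
      push_cast at h3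
      linarith
    · have h1 := conv y
      have h2 := hk y
      have h3 := hW (univ.filter (fun v => 0 < dg H v ∧ k < dg H v)) (by
        intro w hw
        rw [Finset.mem_filter] at hw
        omega)
      linarith

theorem card_le {V : Type} [Fintype V] [DecidableEq V] (G : SimpleGraph V) (k : ℕ) (v : V)
    [DecidablePred fun w => G.Adj v w ∧ k < dg G w] :
    (univ.filter (fun w => G.Adj v w ∧ k < dg G w)).card ≤ large G k v := by
  rw [← Set.ncard_coe_finset]
  apply Set.ncard_le_ncard _ (Set.toFinite _)
  intro w hw
  rw [Finset.mem_coe, Finset.mem_filter] at hw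
  exact hw.2

/-- Let `G` be a finite simple graph with all degrees at most `D`.

(1) Let `2 k ≤ D + 1` and let every vertex of degree more than `k` have at most `D - k` neighbours
of degree more than `k`. Then `G` is edge-colourable from all lists of `D` colours if and only if
its subgraph of the edges with both ends of degree more than `k` is; and both are if `D ≤ 3 k`.

(2) Let `D + 1 ≤ 2 k` and let every vertex have at most `2 D + 1 - 3 k` neighbours of degree more
than `k`. Then `G` is edge-colourable from all lists of `D` colours.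

(3) For every `ε > 0` there is `K` such that `G` is edge-colourable from all lists of `D` colours if
(a) `2 k ≤ D + 1` and every vertex of degree more than `k` has at most `D - k` and at most
`(1 - ε) D - K (1 + log (N + 1))` neighbours of degree more than `k`, where `N` is the number of the
vertices of degree more than `k`; or (b) `D + 1 ≤ 2 k` and every vertex has at most
`(1 - ε) D - k - K (1 + log (N + 1))` neighbours of degree more than `k`, where `N` is the number of
the vertices of degree at least `D + 2 - k`.

(4) If `G` is edge-colourable from all lists of `D` colours and has a vertex of degree `D`, then the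
list edge-colouring conjecture holds for `G`. -/
theorem result :
    (∀ (V : Type) [Fintype V] (G : SimpleGraph V) (D k : ℕ), (∀ v, deg G v ≤ D) →
      2 * k ≤ D + 1 → (∀ v, k < deg G v → large G k v + k ≤ D) →
      (EdgeChoosable G D ↔ EdgeChoosable (largeEdges G k) D) ∧
      (D ≤ 3 * k → EdgeChoosable G D)) ∧
    (∀ (V : Type) [Fintype V] (G : SimpleGraph V) (D k : ℕ), (∀ v, deg G v ≤ D) →
      D + 1 ≤ 2 * k → (∀ v, large G k v + 3 * k ≤ 2 * D + 1) → EdgeChoosable G D) ∧
    (∀ ε : ℝ, 0 < ε → ∃ K : ℝ, 0 < K ∧
      ∀ (V : Type) [Fintype V] (G : SimpleGraph V) (D k : ℕ), (∀ v, deg G v ≤ D) →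
      ((2 * k ≤ D + 1 ∧ ∀ v, k < deg G v → large G k v + k ≤ D ∧
          (large G k v : ℝ) ≤
            (1 - ε) * D - K * (1 + Real.log ({w | k < deg G w}.ncard + 1))) ∨
        (D + 1 ≤ 2 * k ∧ ∀ v, (large G k v : ℝ) ≤
            (1 - ε) * D - k - K * (1 + Real.log ({w | D + 2 ≤ deg G w + k}.ncard + 1)))) →
      EdgeChoosable G D) ∧
    (∀ (V : Type) [Fintype V] (G : SimpleGraph V) (D : ℕ), EdgeChoosable G D →
      (∃ v, deg G v = D) → ListEdgeConjectureFor G) := by
  classical
  refine ⟨?_, ?_, ?_, ?_⟩
  · intro V _ G D k hD h2 hk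
    refine ⟨⟨fun h => mono (H := core G k) (fun _ _ h => h.1) h, fun h => ?_⟩, fun h3 => ?_⟩
    · refine of_core G D k hD h2 (fun v hv => ?_) h
      have := dg_core_le G k v
      have := hk v hv
      omega
    · refine of_not_irr G D fun H hH hne => no_irr1 G D k hD h3 h2 (fun v hv => ?_) H hH hne
      have h4 := card_le G k v
      have h5 := hk v hv
      refine le_trans (Nat.add_le_add_right (le_of_eq ?_) k) (le_trans (Nat.add_le_add_right h4 k) h5)
      congr
  · intro V _ G D k hD h2 hk
    refine of_not_irr G D fun H hH hne => no_irr2 G D k hD h2 (fun v => ?_) H hH hne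
    have h4 := card_le G k v
    have h5 := hk v
    refine le_trans (Nat.add_le_add_right (le_of_eq ?_) (3 * k))
      (le_trans (Nat.add_le_add_right h4 (3 * k)) h5)
    congr
  · intro ε hε
    obtain ⟨K, hK0, hK1, hK2⟩ := core_slack ε hε
    refine ⟨K, hK0, ?_⟩
    rintro V _ G D k hD (⟨h2, hk⟩ | ⟨h2, hk⟩)
    · refine of_core G D k hD h2 (fun v hv => ?_) (hK1 V G D k hD fun v hv => ?_)
      · have := dg_core_le G k v
        have := (hk v hv).1
        omega
      · have := (hk v hv).2
        linarith
    · refine hK2 V G D k hD h2 fun v => ?_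
      have := hk v
      linarith
  · rintro V _ G D h ⟨v, hv⟩ k
    exact lecc G D h v hv k

end Pool.Agent.Results.MP_2f9829_co.FewLargeNeighbours
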